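import Pool.Agent.H459R3.NS.Final

/-!
Complex vectors and their helical components.
-/

namespace Pool.Agent.K1H41.NS

open H459R3.NS

/-- the bilinear product -/
def dotc (a b : Fin 3 → ℂ) : ℂ := a 0 * b 0 + a 1 * b 1 + a 2 * b 2

/-- the cross product -/
def crossc (a b : Fin 3 → ℂ) : Fin 3 → ℂ :=
  ![a 1 * b 2 - a 2 * b 1, a 2 * b 0 - a 0 * b 2, a 0 * b 1 - a 1 * b 0]

/-- the determinant -/
def detc (a b c : Fin 3 → ℂ) : ℂ := dotc a (crossc b c)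

/-- a frequency as a complex vector -/
def kc (k : K3) : Fin 3 → ℂ := fun j => (k j : ℂ)

/-- the Euclidean length of a frequency -/
noncomputable def eu (k : K3) : ℝ := Real.sqrt (∑ j, (k j : ℝ) ^ 2)

/-- the Euclidean length of a complex vector -/
noncomputable def nv (a : Fin 3 → ℂ) : ℝ := Real.sqrt (∑ i, ‖a i‖ ^ 2)

/-- the helical component with sign `σ` at the frequency `k` -/
noncomputable def hc (σ : ℝ) (a : Fin 3 → ℂ) (k : K3) : Fin 3 → ℂ := fun i =>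
  (a i + σ * Complex.I * crossc (kc k) a i / eu k) / 2

theorem eu_nonneg (k : K3) : 0 ≤ eu k := Real.sqrt_nonneg _

theorem nv_nonneg (a : Fin 3 → ℂ) : 0 ≤ nv a := Real.sqrt_nonneg _

theorem eu_sq (k : K3) : eu k ^ 2 = (k 0 : ℝ) ^ 2 + (k 1 : ℝ) ^ 2 + (k 2 : ℝ) ^ 2 := by
  unfold eu
  rw [Real.sq_sqrt (Finset.sum_nonneg fun _ _ => sq_nonneg _), Fin.sum_univ_three]

theorem nv_sq (a : Fin 3 → ℂ) : nv a ^ 2 = ‖a 0‖ ^ 2 + ‖a 1‖ ^ 2 + ‖a 2‖ ^ 2 := by
  unfold nv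
  rw [Real.sq_sqrt (Finset.sum_nonneg fun _ _ => sq_nonneg _), Fin.sum_univ_three]

theorem eu_sqc (k : K3) : (eu k : ℂ) ^ 2 = (k 0 : ℂ) ^ 2 + (k 1 : ℂ) ^ 2 + (k 2 : ℂ) ^ 2 := by
  have h := eu_sq k
  have h2 : ((eu k ^ 2 : ℝ) : ℂ) = (((k 0 : ℝ) ^ 2 + (k 1 : ℝ) ^ 2 + (k 2 : ℝ) ^ 2 : ℝ) : ℂ) := by
    rw [h]
  push_cast at h2
  exact h2

theorem eu_eq_zero {k : K3} : eu k = 0 ↔ k = 0 := by
  constructor
  · intro h
    have h1 := eu_sq k
    rw [h] at h1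
    have a0 : (k 0 : ℝ) ^ 2 = 0 := by nlinarith [sq_nonneg (k 0 : ℝ), sq_nonneg (k 1 : ℝ), sq_nonneg (k 2 : ℝ)]
    have a1 : (k 1 : ℝ) ^ 2 = 0 := by nlinarith [sq_nonneg (k 0 : ℝ), sq_nonneg (k 1 : ℝ), sq_nonneg (k 2 : ℝ)]
    have a2 : (k 2 : ℝ) ^ 2 = 0 := by nlinarith [sq_nonneg (k 0 : ℝ), sq_nonneg (k 1 : ℝ), sq_nonneg (k 2 : ℝ)]
    funext j
    fin_cases j
    · simpa using a0
    · simpa using a1
    · simpa using a2
  · rintro rfl
    simp [eu]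

theorem nv_kc (k : K3) : nv (kc k) = eu k := by
  unfold nv eu kc
  congr 1
  refine Finset.sum_congr rfl fun j _ => ?_
  rw [Complex.norm_intCast, sq_abs]

theorem norm_dotc_le (a b : Fin 3 → ℂ) : ‖dotc a b‖ ≤ nv a * nv b := by
  have h1 : ‖dotc a b‖ ≤ ∑ i, ‖a i‖ * ‖b i‖ := by
    unfold dotc
    rw [Fin.sum_univ_three, ← norm_mul, ← norm_mul, ← norm_mul]
    exact norm_add₃_le
  refine h1.trans ?_
  unfold nv
  rw [← Real.sqrt_mul (Finset.sum_nonneg fun _ _ => sq_nonneg _)]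
  exact Real.le_sqrt_of_sq_le (Finset.sum_mul_sq_le_sq_mul_sq _ _ _)

theorem dotc_cross_self (k : K3) (a : Fin 3 → ℂ) : dotc (kc k) (crossc (kc k) a) = 0 := by
  simp only [dotc, crossc, kc, Matrix.cons_val_zero, Matrix.cons_val_one, Matrix.cons_val]
  ring

theorem hc_add (a : Fin 3 → ℂ) (k : K3) (i : Fin 3) : hc 1 a k i + hc (-1) a k i = a i := by
  unfold hc
  push_cast
  ring

/-- the helical components are perpendicular to the frequency -/
theorem dotc_hc {σ : ℝ} {a : Fin 3 → ℂ} {k : K3} (h : dotc (kc k) a = 0) :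
    dotc (kc k) (hc σ a k) = 0 := by
  have h2 := dotc_cross_self k a
  have e : dotc (kc k) (hc σ a k)
      = (dotc (kc k) a + σ * Complex.I / eu k * dotc (kc k) (crossc (kc k) a)) / 2 := by
    simp only [dotc, hc]
    ring
  rw [e, h, h2]
  ring

/-- the helical components are eigenvectors of the curl -/
theorem cross_hc {σ : ℝ} (hσ : σ = 1 ∨ σ = -1) {a : Fin 3 → ℂ} {k : K3} (h : dotc (kc k) a = 0)
    (i : Fin 3) : Complex.I * crossc (kc k) (hc σ a k) i = σ * eu k * hc σ a k i := by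
  by_cases hk : k = 0
  · subst hk
    have h0 : eu (0 : K3) = 0 := eu_eq_zero.2 rfl
    rw [h0]
    fin_cases i <;> simp [crossc, kc]
  have he : (eu k : ℂ) ≠ 0 := by exact_mod_cast fun h => hk (eu_eq_zero.1 h)
  have hs : (σ : ℂ) ^ 2 = 1 := by
    rcases hσ with rfl | rfl <;> norm_num
  have hq := eu_sqc k
  have hI := Complex.I_sq
  simp only [dotc, kc] at h
  fin_cases i
  · simp only [hc, crossc, kc, Fin.zero_eta, Fin.isValue, Matrix.cons_val_zero, Matrix.cons_val_one,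
      Matrix.cons_val]
    field_simp
    linear_combination (-(eu k : ℂ) * Complex.I * ((k 1 : ℂ) * a 2 - (k 2 : ℂ) * a 1)) * hs
      + (σ * ((k 1 : ℂ) * ((k 0 : ℂ) * a 1 - (k 1 : ℂ) * a 0) - (k 2 : ℂ) * ((k 2 : ℂ) * a 0 - (k 0 : ℂ) * a 2))) * hI
      - σ * a 0 * hq - σ * (k 0 : ℂ) * h
  · simp only [hc, crossc, kc, Fin.mk_one, Fin.isValue, Matrix.cons_val_zero, Matrix.cons_val_one,
      Matrix.cons_val]
    field_simp
    linear_combination (-(eu k : ℂ) * Complex.I * ((k 2 : ℂ) * a 0 - (k 0 : ℂ) * a 2)) * hs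
      + (σ * ((k 2 : ℂ) * ((k 1 : ℂ) * a 2 - (k 2 : ℂ) * a 1) - (k 0 : ℂ) * ((k 0 : ℂ) * a 1 - (k 1 : ℂ) * a 0))) * hI
      - σ * a 1 * hq - σ * (k 1 : ℂ) * h
  · simp only [hc, crossc, kc, Fin.reduceFinMk, Fin.isValue, Matrix.cons_val_zero, Matrix.cons_val_one,
      Matrix.cons_val]
    field_simp
    linear_combination (-(eu k : ℂ) * Complex.I * ((k 0 : ℂ) * a 1 - (k 1 : ℂ) * a 0)) * hs
      + (σ * ((k 0 : ℂ) * ((k 2 : ℂ) * a 0 - (k 0 : ℂ) * a 2) - (k 1 : ℂ) * ((k 1 : ℂ) * a 2 - (k 2 : ℂ) * a 1))) * hI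
      - σ * a 2 * hq - σ * (k 2 : ℂ) * h

theorem detc_cyc (a b c : Fin 3 → ℂ) : detc a b c = detc b c a := by
  simp only [detc, dotc, crossc, Matrix.cons_val_zero, Matrix.cons_val_one, Matrix.cons_val]
  ring

/-- the interaction of two opposite helical components is small if the third frequency is small -/
theorem det_hel {q r : K3} {Q R : ℂ} {a b c : Fin 3 → ℂ}
    (hb : ∀ i, Complex.I * crossc (kc q) b i = Q * b i)
    (hc : ∀ i, Complex.I * crossc (kc r) c i = -R * c i)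
    (hqb : dotc (kc q) b = 0) (hrc : dotc (kc r) c = 0) (ha : dotc (kc (q + r)) a = 0) :
    (Q + R) * detc b c a = Complex.I * (dotc (kc (q + r)) c * dotc b a
      + dotc (kc (q + r)) b * dotc c a) := by
  have b0 := hb 0
  have b1 := hb 1
  have b2 := hb 2
  have c0 := hc 0
  have c1 := hc 1
  have c2 := hc 2
  simp only [detc, dotc, crossc, kc, Pi.add_apply, Matrix.cons_val_zero, Matrix.cons_val_one,
    Matrix.cons_val] at *
  push_cast at *
  linear_combination (-(c 1 * a 2 - c 2 * a 1)) * b0 + (-(c 2 * a 0 - c 0 * a 2)) * b1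
    + (-(c 0 * a 1 - c 1 * a 0)) * b2 + (a 1 * b 2 - a 2 * b 1) * c0 + (a 2 * b 0 - a 0 * b 2) * c1
    + (a 0 * b 1 - a 1 * b 0) * c2
    - (Complex.I * (b 0 * c 0 + b 1 * c 1 + b 2 * c 2)) * ha
    - (Complex.I * (b 0 * a 0 + b 1 * a 1 + b 2 * a 2)) * hrc
    - (Complex.I * (c 0 * a 0 + c 1 * a 1 + c 2 * a 2)) * hqb

theorem nv_cross_le (k : K3) (a : Fin 3 → ℂ) : nv (crossc (kc k) a) ≤ eu k * nv a := by
  refine le_of_sq_le_sq ?_ (mul_nonneg (eu_nonneg _) (nv_nonneg _))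
  rw [mul_pow, nv_sq, nv_sq, eu_sq]
  simp only [crossc, kc, Matrix.cons_val_zero, Matrix.cons_val_one, Matrix.cons_val]
  simp only [Complex.sq_norm, Complex.normSq_apply, Complex.sub_re, Complex.sub_im, Complex.mul_re,
    Complex.mul_im, Complex.intCast_re, Complex.intCast_im]
  nlinarith [sq_nonneg ((k 0 : ℝ) * (a 0).re + (k 1 : ℝ) * (a 1).re + (k 2 : ℝ) * (a 2).re),
    sq_nonneg ((k 0 : ℝ) * (a 0).im + (k 1 : ℝ) * (a 1).im + (k 2 : ℝ) * (a 2).im)]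
where
  le_of_sq_le_sq {x y : ℝ} (h : x ^ 2 ≤ y ^ 2) (hy : 0 ≤ y) : x ≤ y := by
    by_contra hc
    push Not at hc
    nlinarith

theorem nv_sq_hc (σ : ℝ) (hσ : σ = 1 ∨ σ = -1) (a : Fin 3 → ℂ) (k : K3) :
    nv (hc σ a k) ^ 2 ≤ nv a ^ 2 := by
  set w : Fin 3 → ℂ := fun i => σ * Complex.I * crossc (kc k) a i / eu k with hw
  have hσn : ‖(σ : ℂ)‖ = 1 := by
    rcases hσ with rfl | rfl <;> simp
  have h1 : ∀ i, ‖w i‖ = ‖crossc (kc k) a i‖ / eu k := by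
    intro i
    simp only [hw]
    rw [norm_div, norm_mul, norm_mul, hσn, Complex.norm_I, one_mul, one_mul, Complex.norm_real,
      Real.norm_eq_abs, abs_of_nonneg (eu_nonneg k)]
  have h2 : nv w ^ 2 ≤ nv a ^ 2 := by
    rw [nv_sq, h1, h1, h1]
    rcases eq_or_lt_of_le (eu_nonneg k) with h0 | h0
    · rw [← h0]
      simp only [div_zero]
      nlinarith [sq_nonneg (nv a)]
    · rw [div_pow, div_pow, div_pow, ← add_div, ← add_div, ← nv_sq, div_le_iff₀ (by positivity)]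
      have := nv_cross_le k a
      have h3 := nv_nonneg (crossc (kc k) a)
      calc nv (crossc (kc k) a) ^ 2 ≤ (eu k * nv a) ^ 2 := by gcongr
        _ = _ := by ring
  have h3 : ∀ i, ‖hc σ a k i‖ ^ 2 ≤ (‖a i‖ ^ 2 + ‖w i‖ ^ 2) / 2 := by
    intro i
    have e : hc σ a k i = (a i + w i) / 2 := rfl
    rw [e, norm_div, Complex.norm_ofNat]
    have := norm_add_le (a i) (w i)
    have h4 : ‖a i + w i‖ ^ 2 ≤ (‖a i‖ + ‖w i‖) ^ 2 := by gcongr
    rw [div_pow]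
    nlinarith [sq_nonneg (‖a i‖ - ‖w i‖)]
  have h4 : nv (hc σ a k) ^ 2 ≤ (nv a ^ 2 + nv w ^ 2) / 2 := by
    rw [nv_sq, nv_sq, nv_sq]
    linarith [h3 0, h3 1, h3 2]
  linarith

theorem nv_hc_le (σ : ℝ) (hσ : σ = 1 ∨ σ = -1) (a : Fin 3 → ℂ) (k : K3) :
    nv (hc σ a k) ≤ nv a :=
  nv_cross_le.le_of_sq_le_sq (nv_sq_hc σ hσ a k) (nv_nonneg _)

/-- the bound of the interaction of two opposite helical components -/
theorem norm_det_hel {q r : K3} {a b c : Fin 3 → ℂ}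
    (hb : ∀ i, Complex.I * crossc (kc q) b i = (eu q : ℂ) * b i)
    (hc : ∀ i, Complex.I * crossc (kc r) c i = -(eu r : ℂ) * c i)
    (hqb : dotc (kc q) b = 0) (hrc : dotc (kc r) c = 0) (ha : dotc (kc (q + r)) a = 0) :
    (eu q + eu r) * ‖detc b c a‖ ≤ 2 * eu (q + r) * (nv b * (nv c * nv a)) := by
  have h := det_hel hb hc hqb hrc ha
  have h1 : ‖((eu q : ℂ) + eu r) * detc b c a‖ = (eu q + eu r) * ‖detc b c a‖ := by
    rw [norm_mul, ← Complex.ofReal_add, Complex.norm_real, Real.norm_eq_abs,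
      abs_of_nonneg (add_nonneg (eu_nonneg _) (eu_nonneg _))]
  rw [← h1, h, norm_mul, Complex.norm_I, one_mul]
  have e1 := norm_dotc_le (kc (q + r)) c
  have e2 := norm_dotc_le (kc (q + r)) b
  have e3 := norm_dotc_le b a
  have e4 := norm_dotc_le c a
  rw [nv_kc] at e1 e2
  have n1 := nv_nonneg a
  have n2 := nv_nonneg b
  have n3 := nv_nonneg c
  have n4 := eu_nonneg (q + r)
  calc ‖dotc (kc (q + r)) c * dotc b a + dotc (kc (q + r)) b * dotc c a‖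
      ≤ ‖dotc (kc (q + r)) c‖ * ‖dotc b a‖ + ‖dotc (kc (q + r)) b‖ * ‖dotc c a‖ := by
        refine (norm_add_le _ _).trans ?_
        rw [norm_mul, norm_mul]
    _ ≤ (eu (q + r) * nv c) * (nv b * nv a) + (eu (q + r) * nv b) * (nv c * nv a) := by gcongr
    _ = _ := by ring

end Pool.Agent.K1H41.NS
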